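import Pool.Agent.H447.RA.Inv

/-!
# The curves `X³ + Y³ = A`: boundedly many partial algorithms which are right for most `A`

Let `r(A)` be the least size of a generating set of `C_A(ℚ)`. It is shown that there is an algorithm which
computes generating sets of `C_A(ℚ)` for all `A ≠ 0` (question Q1) if and only if there are `k` algorithms,
which need not halt, such that for infinitely many `N` in a decidable set one of them computes `r(B)` for
all but `o(N^(1/3))` of the integers `B ≠ 0` in `[-N, N]`. Which of the `k` algorithms is the good one may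
depend on `N` in an arbitrary, non-computable way, and the algorithms may depend on `N`; so it is enough to
have, for every such `N`, a list of at most `k` tables, not all of which need appear, one of which gives the
values `r(B)`, `|B| ≤ N`, with `o(N^(1/3))` errors.

The same holds for the algorithms which decide, for the binary quartic forms of the family of the 2-coverings
of the curves (`I = 0`, `J = (864 A)²`), whether the form represents a square, or whether the curve of genus
one has infinitely many rational points, with `o(N^(1/2))` failures among the forms of the family with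
coefficients in `[-N, N]`.

The reason: `C_A` and `C_B` are isomorphic for `B = A n³`, and for a fixed `A` there are more of these `B` in
`[-N, N]` than failures; a majority vote gives for each size `N` a list of `k` candidates for the values at
all small `A`, one of which is right. A problem with such candidate lists is decidable (library, after
Kummer and Owings). That the values `r(A)` suffice to compute generating sets is proved in
`GeneratorsAndQuartics`.
-/

set_option autoImplicit false

namespace Pool.Agent.Results.MP_8e0b0b_nt.BoundedAdvice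

open Pool.Agent.Results.MP_8e0b0b_nt.GeneratorsAndQuartics

/-- `e` is computable, `s` is a decidable set, and `(e (N) + 1) ^ p / N` is arbitrarily small for
arbitrarily large `N` in `s` -/
def Few (p : ℕ) (e : ℕ → ℕ) (s : ℕ → Bool) : Prop :=
  Computable e ∧ Computable s ∧ ∀ m, ∃ N ≥ m, s N = true ∧ m * (e N + 1) ^ p ≤ N

/-- the integers `B ≠ 0` in `[-N, N]` for which the algorithm `A` does not give `r B` -/
def RankFailures (A : ℤ →. ℕ) (N : ℕ) : Set ℤ := {B | B ≠ 0 ∧ B.natAbs ≤ N ∧ r B ∉ A B}

/-- the coefficients are in `[-N, N]` -/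
def InBox (N : ℕ) (t : Coef) : Prop :=
  t.1.natAbs ≤ N ∧ t.2.1.natAbs ≤ N ∧ t.2.2.1.natAbs ≤ N ∧ t.2.2.2.1.natAbs ≤ N ∧
    t.2.2.2.2.natAbs ≤ N

/-- the forms of the family with coefficients in `[-N, N]` for which the algorithm `A` does not halt or
gives the wrong answer to the question `T` -/
def Failures (T : Coef → Prop) (A : Coef →. Bool) (N : ℕ) : Set Coef :=
  {t | Fam t ∧ InBox N t ∧ ¬ ∃ b ∈ A t, (b = true ↔ T t)}

lemma few_zero (p : ℕ) : Few p (fun _ => 0) (fun _ => true) :=
  ⟨Computable.const 0, Computable.const true, fun m => ⟨m, le_rfl, rfl, by simp⟩⟩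

lemma sz_le (N : ℕ) (t : Coef) : Pool.Agent.H447.RA.sz t ≤ N ↔ InBox N t := by
  simp only [Pool.Agent.H447.RA.sz, InBox, max_le_iff]

theorem quart {T : Coef → Prop} (hT0 : ∀ t, T t → Fam t)
    (hT : ∀ t, Fam t → ∀ n, (T (Pool.Agent.H447.RA.sq t n) ↔ T t))
    {k : ℕ} {A : ℕ × ℕ × Coef →. Bool} {e : ℕ → ℕ} {s : ℕ → Bool} (hA : Partrec A)
    (hf : Few 2 e s) (h : ∀ N, s N = true → ∃ i < k,
      (Failures T (fun t => A (i, N, t)) N).encard ≤ (e N : ℕ∞)) : ComputablePred T := by
  classical
  obtain ⟨he, hs, hd⟩ := hf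
  obtain ⟨D, hD, hD2⟩ := Pool.Agent.H447.RA.adv (X := Coef) (Y := Coef) (P := Fam) (T := T) k hA id
    Pool.Agent.H447.RA.sz_comp Pool.Agent.H447.RA.sq_comp 2
    (fun t ht => Pool.Agent.H447.RA.sq_inj (Pool.Agent.H447.RA.fam_ne ht))
    (fun t n _ => (Pool.Agent.H447.RA.sz_sq t n).le)
    (fun t n ht => Pool.Agent.H447.RA.fam_sq ht n)
    (fun t n ht => hT t ht n) he hs hd
    (by
      intro N hN
      obtain ⟨i, hi, hi2⟩ := h N hN
      refine ⟨i, hi, _, hi2, ?_⟩
      intro t ht hs hn
      by_contra hc
      exact hn ⟨ht, (sz_le N t).1 hs, hc⟩)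
  have hFam : ComputablePred Fam := by
    have := Pool.Agent.H447.QR.AsmG.hD Pool.Agent.H447.QR.All2.h3
    have e1 : Fam = Pool.Agent.H447.QR.AsmG.DC := by
      funext t
      exact propext (fam_eq t)
    rw [e1]
    exact this
  obtain ⟨inst, hc⟩ := hFam
  have hE : Partrec fun t : Coef => cond (decide (Fam t)) (D t) (Part.some false) :=
    Partrec.cond hc hD (Computable.const false).partrec
  refine ⟨Classical.decPred _, ?_⟩
  refine Partrec.of_eq hE fun t => ?_
  by_cases ht : Fam t
  · rw [decide_eq_true ht]
    obtain ⟨b, hb, hb2⟩ := hD2 t ht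
    show D t = _
    rw [hb]
    congr 1
    rw [Bool.eq_iff_iff, decide_eq_true_eq]
    exact hb2
  · rw [decide_eq_false ht]
    show Part.some false = _
    have : ¬ T t := fun h => ht (hT0 t h)
    simp [this]

theorem quart_iff {T : Coef → Prop} (hT0 : ∀ t, T t → Fam t)
    (hT : ∀ t, Fam t → ∀ n, (T (Pool.Agent.H447.RA.sq t n) ↔ T t)) :
    ComputablePred T ↔ ∃ (k : ℕ) (A : ℕ × ℕ × Coef →. Bool) (e : ℕ → ℕ) (s : ℕ → Bool),
      Partrec A ∧ Few 2 e s ∧ ∀ N, s N = true → ∃ i < k,
        (Failures T (fun t => A (i, N, t)) N).encard ≤ (e N : ℕ∞) := by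
  constructor
  · rintro ⟨inst, hc⟩
    refine ⟨1, fun x => Part.some (decide (T x.2.2)), _, _,
      Computable.partrec (hc.comp (Computable.snd.comp Computable.snd)), few_zero 2,
      fun N _ => ⟨0, Nat.one_pos, ?_⟩⟩
    have h1 : Failures T (fun t => Part.some (decide (T t))) N = ∅ := by
      ext t
      simp [Failures]
    rw [h1, Set.encard_empty]
    exact zero_le
  · rintro ⟨k, A, e, s, hA, hf, h⟩
    exact quart hT0 hT hA hf h

/-- **Main theorem.** Each of the following is equivalent to a positive answer to Q1: one of boundedly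
many partial algorithms computes `r (B)` with few failures; one of boundedly many partial algorithms
decides for the forms of the family whether they represent a square, or whether they have infinitely many
rational points, with few failures. -/
theorem result :
    (Q1 ↔ ∃ (k : ℕ) (A : ℕ × ℕ × ℤ →. ℕ) (e : ℕ → ℕ) (s : ℕ → Bool),
      Partrec A ∧ Few 3 e s ∧ ∀ N, s N = true → ∃ i < k,
        (RankFailures (fun B => A (i, N, B)) N).encard ≤ (e N : ℕ∞)) ∧
    (Q1 ↔ ∃ (k : ℕ) (A : ℕ × ℕ × Coef →. Bool) (e : ℕ → ℕ) (s : ℕ → Bool),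
      Partrec A ∧ Few 2 e s ∧ ∀ N, s N = true → ∃ i < k,
        (Failures HasPoint (fun t => A (i, N, t)) N).encard ≤ (e N : ℕ∞)) ∧
    (Q1 ↔ ∃ (k : ℕ) (A : ℕ × ℕ × Coef →. Bool) (e : ℕ → ℕ) (s : ℕ → Bool),
      Partrec A ∧ Few 2 e s ∧ ∀ N, s N = true → ∃ i < k,
        (Failures ManyPoints (fun t => A (i, N, t)) N).encard ≤ (e N : ℕ∞)) := by
  obtain ⟨-, h1, h2, h3⟩ := GeneratorsAndQuartics.result
  refine ⟨?_, ?_, ?_⟩
  · rw [h1]
    constructor
    · intro h
      refine ⟨1, fun x => Part.some (r x.2.2), _, _,
        Computable.partrec (Computable.comp h (Computable.snd.comp Computable.snd)), few_zero 3,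
        fun N _ => ⟨0, Nat.one_pos, ?_⟩⟩
      have h4 : RankFailures (fun B => Part.some (r B)) N = ∅ := by
        ext B
        simp [RankFailures]
      rw [h4, Set.encard_empty]
      exact zero_le
    · rintro ⟨k, A, e, s, hA, ⟨he, hs, hd⟩, h⟩
      exact Pool.Agent.H447.RA.adv_fun (by simp [r]) (fun B n hB => Pool.Agent.H447.RA.r_cube B n hB) k
        hA he hs hd h
  · rw [h1, ← h2]
    exact quart_iff (fun t h => h.1) fun t ht n => Pool.Agent.H447.RA.has_sq ht n
  · rw [h1, ← h3]
    exact quart_iff (fun t h => h.1) fun t ht n => Pool.Agent.H447.RA.many_sq ht n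

end Pool.Agent.Results.MP_8e0b0b_nt.BoundedAdvice
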