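import Pool.Agent.H447.QR.All2

/-!
# The curves `X³ + Y³ = A`: generators, the number of generators, and binary quartic forms with `I = 0`
-/

set_option autoImplicit false

open WeierstrassCurve

namespace Pool.Agent.Results.MP_8e0b0b_nt.GeneratorsAndQuartics

/-- The group of rational points of `X³ + Y³ = A`, in the model `y² = x³ - 432 A²`. The linear change of
coordinates `[X : Y : Z] ↦ [12 A Z : 36 A (X - Y) : X + Y]` identifies the two curves; it maps the base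
point `[1 : -1 : 0]` to the point at infinity. -/
abbrev C (A : ℤ) : Type :=
  (⟨0, 0, 0, 0, -432 * (A : ℚ) ^ 2⟩ : WeierstrassCurve ℚ).toAffine.Point

/-- the change of coordinates on the affine points -/
def chg (A : ℤ) (p : ℚ × ℚ) : ℚ × ℚ :=
  (12 * A / (p.1 + p.2), 36 * A * (p.1 - p.2) / (p.1 + p.2))

/-- `p = [u : v : w]` is the point `(u / w, v / w)` of `X³ + Y³ = A` and `P` is the same point in the
Weierstrass model -/
def Same (A : ℤ) (p : ℤ × ℤ × ℤ) (P : C A) : Prop :=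
  ∃ h, P = Affine.Point.some (chg A ((p.1 : ℚ) / p.2.2, (p.2.1 : ℚ) / p.2.2)).1
    (chg A ((p.1 : ℚ) / p.2.2, (p.2.1 : ℚ) / p.2.2)).2 h

/-- Q1: there is an algorithm which computes, for every nonzero integer `A`, a list of solutions
`[u : v : w]`, `u³ + v³ = A w³`, `w ≠ 0`, which generate the group. -/
def Q1 : Prop :=
  ∃ f : ℤ → List (ℤ × ℤ × ℤ), Computable f ∧ ∀ A : ℤ, A ≠ 0 →
    (∀ p ∈ f A, p.2.2 ≠ 0 ∧ p.1 ^ 3 + p.2.1 ^ 3 = A * p.2.2 ^ 3) ∧
      AddSubgroup.closure {P : C A | ∃ p ∈ f A, Same A p P} = ⊤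

/-- `r (A)`, the least size of a generating set; `0` for `A = 0` -/
noncomputable def r (A : ℤ) : ℕ :=
  if A = 0 then 0 else
    sInf {n : ℕ | ∃ S : Finset (C A), S.card = n ∧ AddSubgroup.closure (S : Set (C A)) = ⊤}

/-- Q2: `r` is computable -/
def Q2 : Prop := Computable r

/-- the coefficients `(a, b, c, d, e)` of a binary quartic form -/
abbrev Coef : Type := ℤ × ℤ × ℤ × ℤ × ℤ

/-- the value `a x⁴ + b x³ z + c x² z² + d x z³ + e z⁴` -/
def val (t : Coef) (x z : ℚ) : ℚ :=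
  t.1 * x ^ 4 + t.2.1 * x ^ 3 * z + t.2.2.1 * x ^ 2 * z ^ 2 + t.2.2.2.1 * x * z ^ 3 +
    t.2.2.2.2 * z ^ 4

/-- the invariant `I = 12 a e - 3 b d + c²` -/
def invI (t : Coef) : ℤ := 12 * t.1 * t.2.2.2.2 - 3 * t.2.1 * t.2.2.2.1 + t.2.2.1 ^ 2

/-- the invariant `J = 72 a c e + 9 b c d - 27 a d² - 27 e b² - 2 c³` -/
def invJ (t : Coef) : ℤ :=
  72 * t.1 * t.2.2.1 * t.2.2.2.2 + 9 * t.2.1 * t.2.2.1 * t.2.2.2.1 - 27 * t.1 * t.2.2.2.1 ^ 2 -
    27 * t.2.2.2.2 * t.2.1 ^ 2 - 2 * t.2.2.1 ^ 3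

/-- the forms with `I = 0` and `J = (864 A)²`, `A ≠ 0` -/
def Fam (t : Coef) : Prop := invI t = 0 ∧ ∃ A : ℤ, A ≠ 0 ∧ invJ t = (864 * A) ^ 2

/-- forms of the family which represent a square -/
def HasPoint (t : Coef) : Prop :=
  Fam t ∧ ∃ x z y : ℚ, (x ≠ 0 ∨ z ≠ 0) ∧ y ^ 2 = val t x z

/-- forms of the family for which `y² = a x⁴ + b x³ + c x² + d x + e` has infinitely many rational
solutions -/
def ManyPoints (t : Coef) : Prop :=
  Fam t ∧ Set.Infinite {p : ℚ × ℚ | p.2 ^ 2 = val t p.1 1}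

theorem bA_cast (A : ℤ) : ((Pool.Agent.H447.QR.bA A : ℤ) : ℚ) = -432 * (A : ℚ) ^ 2 := by
  unfold Pool.Agent.H447.QR.bA; push_cast; ring

theorem crv_eq (A : ℤ) :
    (⟨0, 0, 0, 0, -432 * (A : ℚ) ^ 2⟩ : WeierstrassCurve ℚ) =
      ⟨0, 0, 0, ((0 : ℤ) : ℚ), ((Pool.Agent.H447.QR.bA A : ℤ) : ℚ)⟩ := by
  rw [bA_cast, Int.cast_zero]

theorem fam_eq (t : Coef) : Fam t ↔ Pool.Agent.H447.QR.AsmG.DC t := by
  have e : ∀ A : ℤ, ((864 * A) ^ 2 : ℤ) = 746496 * A ^ 2 := fun A => by ring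
  unfold Fam Pool.Agent.H447.QR.AsmG.DC
  simp only [e]
  exact Iff.rfl

theorem has_eq : HasPoint = Pool.Agent.H447.QR.AsmG.SolC := by
  funext t
  unfold HasPoint Pool.Agent.H447.QR.AsmG.SolC
  rw [fam_eq]
  rfl

theorem many_eq : ManyPoints = Pool.Agent.H447.QR.AsmG.InC := by
  funext t
  unfold ManyPoints Pool.Agent.H447.QR.AsmG.InC
  rw [fam_eq]
  rfl

theorem gnum_congr {W W' : WeierstrassCurve ℚ} (h : W = W') :
    sInf {n : ℕ | ∃ S : Finset W.toAffine.Point, S.card = n ∧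
      AddSubgroup.closure (S : Set W.toAffine.Point) = ⊤} =
      Pool.Agent.H447.QR.gnum W'.toAffine.Point := by
  subst h
  rfl

theorem r_eq : r = Pool.Agent.H447.QR.AsmG.rA := by
  funext A
  by_cases h : A = 0
  · unfold r Pool.Agent.H447.QR.AsmG.rA
    rw [if_pos h, if_pos h]
  · unfold r Pool.Agent.H447.QR.AsmG.rA
    rw [if_neg h, if_neg h]
    exact gnum_congr (crv_eq A)

theorem q1_eq : Q1 ↔ Pool.Agent.H447.QR.AsmH.GenCub := by
  have key : ∀ (A : ℤ) (l : List (ℤ × ℤ × ℤ)), A ≠ 0 →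
      (∀ p ∈ l, Pool.Agent.H447.QR.AsmH.OnCub A p) →
      ((AddSubgroup.closure {P : C A | ∃ p ∈ l, Same A p P} = ⊤) ↔
      (AddSubgroup.closure {P : Pool.Agent.H447.QR.Pt ((0 : ℤ) : ℚ)
        ((Pool.Agent.H447.QR.bA A : ℤ) : ℚ) |
        ∃ p ∈ l, P = Pool.Agent.H447.QR.pt 0 (Pool.Agent.H447.QR.bA A)
          (Pool.Agent.H447.QR.AsmH.back A p)} = ⊤)) := by
    intro A l hA hl
    have hd : 4 * (0 : ℤ) ^ 3 + 27 * (Pool.Agent.H447.QR.bA A) ^ 2 ≠ 0 :=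
      Pool.Agent.H447.QR.AsmG.fc_hd (Pool.Agent.H447.QR.AsmG.fc_bA hA)
    have hset : {P : Pool.Agent.H447.QR.Pt ((0 : ℤ) : ℚ) ((Pool.Agent.H447.QR.bA A : ℤ) : ℚ) |
        ∃ p ∈ l, P = Pool.Agent.H447.QR.pt 0 (Pool.Agent.H447.QR.bA A)
          (Pool.Agent.H447.QR.AsmH.back A p)} =
        {P | ∃ p ∈ l, ∃ h, P = Affine.Point.some
          (chg A ((p.1 : ℚ) / p.2.2, (p.2.1 : ℚ) / p.2.2)).1
          (chg A ((p.1 : ℚ) / p.2.2, (p.2.1 : ℚ) / p.2.2)).2 h} := by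
      have hco : ∀ p ∈ l, ((Pool.Agent.H447.QR.AsmH.back A p).1 : ℚ) /
            ((Pool.Agent.H447.QR.AsmH.back A p).2.2 : ℚ) ^ 2 =
            (chg A ((p.1 : ℚ) / p.2.2, (p.2.1 : ℚ) / p.2.2)).1 ∧
          ((Pool.Agent.H447.QR.AsmH.back A p).2.1 : ℚ) /
            ((Pool.Agent.H447.QR.AsmH.back A p).2.2 : ℚ) ^ 3 =
            (chg A ((p.1 : ℚ) / p.2.2, (p.2.1 : ℚ) / p.2.2)).2 := by
        intro p hp
        have hw : (p.2.2 : ℚ) ≠ 0 := by exact_mod_cast (hl p hp).1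
        have hs : (p.1 : ℚ) + p.2.1 ≠ 0 := by
          have := (Pool.Agent.H447.QR.AsmH.on_back hA (hl p hp)).1
          simp only [Pool.Agent.H447.QR.AsmH.back] at this
          exact_mod_cast this
        have hs' : (p.1 : ℚ) / p.2.2 + p.2.1 / p.2.2 ≠ 0 := by
          rw [← add_div]; exact div_ne_zero hs hw
        simp only [Pool.Agent.H447.QR.AsmH.back, chg]
        push_cast
        constructor
        · rw [← add_div]
          field_simp
        · rw [← add_div, ← sub_div]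
          field_simp
      ext P
      constructor
      · rintro ⟨p, hp, rfl⟩
        obtain ⟨hn, e⟩ := Pool.Agent.H447.QR.AsmE.pt_some hd
          (Pool.Agent.H447.QR.AsmH.on_back hA (hl p hp))
        obtain ⟨e1, e2⟩ := hco p hp
        refine ⟨p, hp, ?_⟩
        rw [← e1, ← e2]
        exact ⟨hn, e⟩
      · rintro ⟨p, hp, h, rfl⟩
        obtain ⟨hn, e⟩ := Pool.Agent.H447.QR.AsmE.pt_some hd
          (Pool.Agent.H447.QR.AsmH.on_back hA (hl p hp))
        obtain ⟨e1, e2⟩ := hco p hp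
        refine ⟨p, hp, ?_⟩
        rw [e]
        simp only [Affine.Point.some.injEq]
        exact ⟨e1.symm, e2.symm⟩
    rw [hset]
    unfold Same C
    rw [crv_eq]
  constructor
  · rintro ⟨f, hf, hg⟩
    refine ⟨f, hf, fun A hA => ?_⟩
    obtain ⟨h1, h2⟩ := hg A hA
    exact ⟨h1, (key A (f A) hA h1).1 h2⟩
  · rintro ⟨f, hf, hg⟩
    refine ⟨f, hf, fun A hA => ?_⟩
    obtain ⟨h1, h2⟩ := hg A hA
    exact ⟨h1, (key A (f A) hA h1).2 h2⟩

/-- **Main theorem.** The change of coordinates is a bijection of the affine points; Q1 and Q2 have the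
same answer, and it is the answer to the questions whether it is decidable which forms of the family
represent squares, or have infinitely many rational points. -/
theorem result :
    (∀ A : ℤ, A ≠ 0 → Set.BijOn (chg A) {p : ℚ × ℚ | p.1 ^ 3 + p.2 ^ 3 = A}
      {q : ℚ × ℚ | q.2 ^ 2 = q.1 ^ 3 - 432 * A ^ 2}) ∧
    (Q1 ↔ Q2) ∧ (ComputablePred HasPoint ↔ Q2) ∧ (ComputablePred ManyPoints ↔ Q2) := by
  have h := Pool.Agent.H447.QR.AsmG.main Pool.Agent.H447.QR.All2.h3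
  refine ⟨fun A hA => Pool.Agent.H447.QR.AsmH.bij A hA, ?_, ?_, ?_⟩
  · rw [q1_eq, Pool.Agent.H447.QR.AsmH.genCub_iff, Q2, r_eq]
    exact h.1
  · rw [has_eq, Q2, r_eq]
    exact h.2.1
  · rw [many_eq, Q2, r_eq]
    exact h.2.2

end Pool.Agent.Results.MP_8e0b0b_nt.GeneratorsAndQuartics
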