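import Pool.Agent.H198.CT2.Fin
import Pool.Graph.R_seed8.Y333.CX.LAM

/-!
# MP_8e0b0b_nt: `C_A` becomes trivial after multiplication of `A` with a suitable prime

`C_A : X³ + Y³ = A`. `Class D`: `D` is cube-free, prime to `3`, and has at most one prime factor
congruent to `2` modulo `3`. Let `N ≠ 0` be any integer whose cube-free part is in the class (the
group `C_N(ℚ)` may be infinite, and unknown) and let `B` be given. There are a prime `p₀ > B` and an
infinite primitive recursive set `P` of primes `> p₀`, all `1` modulo `9`, such that `X³ + Y³ = N m` has no rational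
solution, that is `C_(N m)(ℚ) = {O}`, for ALL numbers `m` composed of `p₀` and of primes of `P` in
which the exponent of `p₀` is not divisible by `3`. In particular neither `N p₀` nor `N p₀²` is a sum
of two rational cubes.

The primes with prescribed cubic residue symbols (`T2H26/CM`), the arithmetic for a single `A` and
the points on the diagonal (`R486/TC`) are from the library.  New: a matrix over the field with three
elements becomes invertible after addition, and also after subtraction, of one suitable diagonal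
matrix (`H198/CT/Dia`); this gives `p₀` (one modulo three if `N` has a prime factor two modulo three
as above, and two modulo three otherwise), and the other primes are found greedily.
-/

set_option autoImplicit false

open scoped Classical

namespace Pool.Agent.Results.MP_8e0b0b_nt.PrimeMultiples

/-- `D` is cube-free, prime to `3`, and has at most one prime factor congruent to `2` modulo `3` -/
def Class (D : ℕ) : Prop :=
  D ≠ 0 ∧ (∀ p : ℕ, p.Prime → ¬ p ^ 3 ∣ D) ∧ ¬ 3 ∣ D ∧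
    ∀ p q : ℕ, p.Prime → q.Prime → p ∣ D → q ∣ D → p % 3 = 2 → q % 3 = 2 → p = q

/-- the cube-free part of `N` is in the class -/
def Family (N : ℤ) : Prop := ∃ D k : ℕ, N.natAbs = D * k ^ 3 ∧ k ≠ 0 ∧ Class D

theorem no_points {D : ℕ} (hC : Pool.Agent.Y703.CT.Cls D) (hN : Pool.Agent.Y703.CT.NoSplit D)
    {p : ℕ} (hp : p.Prime) (hp2 : p ≠ 2) (hpD : p ∣ D) {n : ℕ} (hn : n ≠ 0) {A : ℤ}
    (hA : A.natAbs = D * n ^ 3) (X Y : ℚ) : X ^ 3 + Y ^ 3 ≠ A := by
  intro hXY
  have hD0 : D ≠ 0 := hC.1.1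
  have hcf := hC.1.2.2
  have hD1 : 1 < D := by
    have h1 := Nat.le_of_dvd (Nat.pos_of_ne_zero hD0) hpD
    have h2 := hp.two_le
    omega
  have hfin := Pool.Agent.R486.TC.fin_of hC hN
  have hnq : (n : ℚ) ≠ 0 := by exact_mod_cast hn
  obtain ⟨s, hs, hsA⟩ : ∃ s : ℤ, (s = 1 ∨ s = -1) ∧ A = s * (D * n ^ 3 : ℕ) := by
    rcases Int.natAbs_eq A with h1 | h1
    · exact ⟨1, Or.inl rfl, by rw [one_mul, ← hA]; exact h1⟩
    · exact ⟨-1, Or.inr rfl, by rw [← hA, neg_one_mul]; exact h1⟩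
  have hs3 : (s : ℚ) ^ 3 * s = 1 := by
    rcases hs with rfl | rfl <;> norm_num
  have hAq : (A : ℚ) = s * (D * n ^ 3) := by
    rw [hsA]
    push_cast
    ring
  have hxy : (s * X / n) ^ 3 + (s * Y / n) ^ 3 = (D : ℚ) := by
    have h6 : (s * X / n) ^ 3 + (s * Y / n) ^ 3 = (s : ℚ) ^ 3 * (X ^ 3 + Y ^ 3) / (n : ℚ) ^ 3 := by
      field_simp
    rw [h6, hXY, hAq, ← mul_assoc, hs3, one_mul]
    field_simp
  have h8 := Pool.Agent.R486.TC.diag_of_finite hcf hD1 hfin hxy
  rw [← h8] at hxy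
  obtain ⟨x, hx⟩ : ∃ x : ℚ, x = s * X / n := ⟨_, rfl⟩
  rw [← hx] at hxy
  have h9 : 2 * x ^ 3 = (D : ℚ) := by linarith
  have hx0 : x ≠ 0 := by
    rintro rfl
    have h10 : (D : ℚ) = 0 := by rw [← h9]; ring
    exact hD0 (by exact_mod_cast h10)
  haveI : Fact p.Prime := ⟨hp⟩
  have h11 := congrArg (padicValRat p) h9
  rw [padicValRat.mul (by norm_num) (pow_ne_zero _ hx0), padicValRat.pow,
    padicValRat.of_nat] at h11
  have h12 : padicValRat p (2 : ℚ) = 0 := by
    have h13 : padicValRat p ((2 : ℕ) : ℚ) = ((padicValNat p 2 : ℕ) : ℤ) := padicValRat.of_nat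
    have h14 : padicValNat p 2 = 0 := padicValNat.eq_zero_of_not_dvd fun h =>
      hp2 ((Nat.prime_dvd_prime_iff_eq hp Nat.prime_two).1 h)
    rw [h14] at h13
    exact_mod_cast h13
  rw [h12] at h11
  have h15 : 1 ≤ padicValNat p D := one_le_padicValNat_of_dvd hD0 hpD
  have h16 : padicValNat p D < 3 := by
    by_contra h
    exact hcf p hp ((padicValNat_dvd_iff_le hD0).2 (by omega))
  obtain ⟨v, hv⟩ : ∃ v : ℤ, v = padicValRat p x := ⟨_, rfl⟩
  rw [← hv, zero_add] at h11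
  have h17 : (3 : ℤ) * v = (padicValNat p D : ℤ) := by exact_mod_cast h11
  omega

theorem result : ∀ N : ℤ, Family N → ∀ B : ℕ, ∃ (p₀ : ℕ) (P : Set ℕ),
    p₀.Prime ∧ B < p₀ ∧ P.Infinite ∧ (∀ p ∈ P, p.Prime ∧ p₀ < p ∧ p % 9 = 1) ∧
    PrimrecPred (fun p => p ∈ P) ∧
    ∀ m : ℕ, m ≠ 0 → (∀ p : ℕ, p.Prime → p ∣ m → p = p₀ ∨ p ∈ P) → ¬ 3 ∣ m.factorization p₀ →
      ∀ X Y : ℚ, X ^ 3 + Y ^ 3 ≠ N * m := by
  rintro N ⟨D, k, hN, hk, hD0, hDcf, hD3, hu⟩ B
  obtain ⟨p₀, P, h1, h2, h4, h5, h8, h6⟩ :=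
    Pool.Agent.H198.CT2.main Pool.Agent.Y333.CX.t_LAM (D := D) ⟨hD0, hD3, hDcf⟩ hu (max B 2)
  refine ⟨p₀, P, h1, lt_of_le_of_lt (le_max_left _ _) h2, h4, h5, h8, fun m hm hmp hm3 X Y hXY => ?_⟩
  obtain ⟨E, K, hK, hEK, hC, hS, hpE⟩ := h6 m hm hmp hm3
  have h7 : 2 < p₀ := lt_of_le_of_lt (le_max_right _ _) h2
  refine no_points hC hS h1 h7.ne' (hpE.mul_left D) (mul_ne_zero hk hK)
    (A := N * m) ?_ X Y ?_
  · rw [Int.natAbs_mul, hN, Int.natAbs_natCast, hEK]
    ring
  · rw [hXY]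
    push_cast
    ring

end Pool.Agent.Results.MP_8e0b0b_nt.PrimeMultiples
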