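import Pool.Agent.H519.G3.Cnt
import Pool.Agent.H519.G3.Rk
import Pool.Graph.R_pool_sql_team_seeded_707910d6.T2H55.XY.Grp

/-!
# MP_8e0b0b_nt: `X³ + Y³ = A` for `A = ± 3 m n³`

`C_A : X³ + Y³ = A`.  The family consists of the integers `A` of both signs with `|A| = 3 m n³`, `n ≠ 0`
and `m > 1` squarefree with all prime factors `1` modulo `3`; it is the case in which `3` divides the
cube-free part of `A` exactly once and the curve has wild reduction at `3`.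

`C_A` is identified with `y² = x³ - 432 A²` by `x = 12 A / (X + Y)`, `y = 36 A (X - Y) / (X + Y)`.  There
is a primitive recursive function `R` such that for all `A` of the family

* `C_A(ℚ)` has no torsion, is finitely generated, and `r(A)` is its rank, at most `2 R(|A|)`;
* if `R(|A|) = 0`, then `C_A(ℚ) = {O}`: the empty set is a generating set and `r(A) = 0`.

`R(3 m n³)` is the number `r` such that there are `3 ^ (r + 1)` splittings of `3 m`, that is,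
factorizations `3 m = d₀ d₁ d₂` into coprime positive numbers such that `d₁ d₂²`, `d₂ d₀²`, `d₀ d₁²` are
cubes modulo the primes dividing `d₀`, `d₁`, `d₂`.  The share of the `A` of the family with `R(|A|) = r`
is exactly `p_r = 3 ^ (-r²) ∏_{i ≥ 1} (1 - 3^{-i}) / ∏_{1 ≤ i ≤ r} (1 - 3^{-i})²`, `p_0 = 0.5601…`,
`p_0 + p_1 = 0.9802…`.

The bound for the rank of the `3`-isogenous curve `y² + 3 m y = x³` and the law of the coranks of the `m`
are the starting results of `Pool/Agent/H462/N9` (helper462).  New here: the step from the isogenous curve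
to `C_A` itself (no torsion by infinite ascent, tripling factors through the isogeny), all `A` and the
natural density in `A`, and the recursiveness of the coranks.
-/

set_option autoImplicit false

open scoped Classical

namespace Pool.Agent.Results.MP_8e0b0b_nt.ThreeTimesSplitPrimes

/-- squarefree numbers `m > 1` with all prime factors `1` modulo `3` -/
def Class (m : ℕ) : Prop := 1 < m ∧ Squarefree m ∧ ∀ p : ℕ, p.Prime → p ∣ m → p % 3 = 1

/-- the family: `N = 3 m n³` with `n ≠ 0` -/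
def Family (N : ℕ) : Prop := ∃ m n : ℕ, N = 3 * m * n ^ 3 ∧ n ≠ 0 ∧ Class m

/-- The factorizations `D = d₀ d₁ d₂` into coprime numbers such that `d_{c+1} d_{c+2}²` is a cube modulo
the primes which divide `d_c`. -/
def splittings (D : ℕ) : Set (ZMod 3 → ℕ) :=
  {d | ∏ c, d c = D ∧ (∀ c c', c ≠ c' → Nat.Coprime (d c) (d c')) ∧
    ∀ (c : ZMod 3) (p : ℕ), p.Prime → p ∣ d c →
      ∃ x : ℤ, (p : ℤ) ∣ (d (c + 1) : ℤ) * (d (c + 2) : ℤ) ^ 2 - x ^ 3}

/-- The curve `y² = x³ - 432 A²`. -/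
def curve (A : ℤ) : WeierstrassCurve ℚ := ⟨0, 0, 0, 0, -432 * (A : ℚ) ^ 2⟩

/-- The group of the rational points of `y² = x³ - 432 A²`, that is, `C_A(ℚ)`. -/
abbrev Points (A : ℤ) := (curve A).toAffine.Point

/-- The least size of a generating set of `C_A(ℚ)`. -/
noncomputable def r (A : ℤ) : ℕ :=
  sInf {n | ∃ S : Finset (Points A), S.card = n ∧ AddSubgroup.closure (S : Set (Points A)) = ⊤}

/-- `P` is the point which corresponds to the point `(X, Y)` of `X³ + Y³ = A`. -/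
def IsPoint (A : ℤ) (P : Points A) (X Y : ℚ) : Prop :=
  X ^ 3 + Y ^ 3 = A ∧
    ∃ h, P = WeierstrassCurve.Affine.Point.some (12 * (A : ℚ) / (X + Y)) (36 * (A : ℚ) * (X - Y) / (X + Y)) h

/-- `p_r = 3 ^ (-r²) ∏_{i ≥ 1} (1 - 3^{-i}) / ∏_{1 ≤ i ≤ r} (1 - 3^{-i})²`. -/
noncomputable def p (r : ℕ) : ℝ :=
  (1 / 3 : ℝ) ^ (r ^ 2) * ((∏' i : ℕ, (1 - (1 / 3 : ℝ) ^ (i + 1))) /
    (∏ i ∈ Finset.range r, (1 - (1 / 3 : ℝ) ^ (i + 1))) ^ 2)

/-- the number of the `N` with the property `Q`, `1 ≤ N ≤ X` -/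
noncomputable def count (Q : ℕ → Prop) (X : ℕ) : ℕ := ((Finset.Icc 1 X).filter Q).card

open Pool.Agent.H519.G3 in
lemma class_iff (m : ℕ) : Class m ↔ Pool.Agent.H519.G3.Class m := Iff.rfl

lemma class_sq {m : ℕ} (h : Class m) : Pool.Agent.H462.N9.Law.Sq m ∧ m ≠ 1 :=
  ⟨⟨h.2.1, h.2.2⟩, h.1.ne'⟩

lemma class_cf {m : ℕ} (h : Class m) : 3 * m ≠ 0 ∧ ∀ p : ℕ, p.Prime → ¬ p ^ 3 ∣ 3 * m := by
  refine ⟨?_, Pool.Agent.H519.G3.cubefree (class_sq h).1⟩
  have := h.1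
  omega

lemma uniq {m m' n n' : ℕ} (h : Class m) (h' : Class m') (hn : n ≠ 0) (hn' : n' ≠ 0)
    (e : 3 * m * n ^ 3 = 3 * m' * n' ^ 3) : m = m' ∧ n = n' := by
  obtain ⟨e1, e2⟩ := Pool.Agent.R486.TC.cf_unique (class_cf h).1 (class_cf h').1 hn hn'
    (class_cf h).2 (class_cf h').2 e
  exact ⟨by omega, e2⟩

lemma corank_unique {N s t : ℕ} (hs : Pool.Agent.H519.G3.Corank N s)
    (ht : Pool.Agent.H519.G3.Corank N t) : s = t := by
  obtain ⟨m, n, h1, h2, h3, h4⟩ := hs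
  obtain ⟨m', n', g1, g2, g3, g4⟩ := ht
  obtain ⟨rfl, rfl⟩ := uniq h3 g3 h2 g2 (h1.symm.trans g1)
  rw [h4] at g4
  have := Nat.pow_right_injective (by norm_num : 2 ≤ 3) g4
  omega

/-- the corank of `3 m n³` is `R (3 m n³)` -/
lemma R_spec {m n : ℕ} (h : Class m) (hn : n ≠ 0) :
    (splittings (3 * m)).ncard = 3 ^ (Pool.Agent.H519.G3.R (3 * m * n ^ 3) + 1) := by
  obtain ⟨s, hs⟩ := Pool.Agent.H462.N9.Law.exists_r (class_sq h).1
  have h1 : Pool.Agent.H519.G3.Corank (3 * m * n ^ 3) s := ⟨m, n, rfl, hn, h, hs⟩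
  obtain ⟨m', n', g1, g2, g3, g4⟩ := Pool.Agent.H519.G3.R_spec h1
  obtain ⟨rfl, rfl⟩ := uniq h g3 hn g2 g1
  exact g4

/-- the properties of the number `3 m` -/
lemma ext_family (N : ℕ) : Pool.Agent.R486.TC.Ext (fun D => ∃ m, D = 3 * m ∧ Class m) N ↔
    Family N := by
  constructor
  · rintro ⟨D, n, h1, h2, m, rfl, h3⟩
    exact ⟨m, n, h1, h2, h3⟩
  · rintro ⟨m, n, h1, h2, h3⟩
    exact ⟨3 * m, n, h1, h2, m, rfl, h3⟩

lemma ext_corank (s N : ℕ) : Pool.Agent.R486.TC.Ext (fun D => ∃ m, D = 3 * m ∧ Class m ∧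
      (splittings (3 * m)).ncard = 3 ^ (s + 1)) N ↔
    Family N ∧ Pool.Agent.H519.G3.R N = s := by
  constructor
  · rintro ⟨D, n, h1, h2, m, rfl, h3, h4⟩
    refine ⟨⟨m, n, h1, h2, h3⟩, ?_⟩
    have h5 := R_spec h3 h2
    rw [← h1, h4] at h5
    have := Nat.pow_right_injective (by norm_num : 2 ≤ 3) h5
    omega
  · rintro ⟨⟨m, n, h1, h2, h3⟩, rfl⟩
    refine ⟨3 * m, n, h1, h2, m, rfl, h3, ?_⟩
    rw [h1]
    exact R_spec h3 h2

lemma cnt_three (Q : ℕ → Prop) (hQ : ∀ m, Q m → Class m) (X : ℕ) :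
    Pool.Agent.R486.TC.cnt (fun D => ∃ m, D = 3 * m ∧ Q m) X =
      {m ∈ Pool.Agent.H462.N9.Law.Fa (X / 3) | Q m}.ncard := by
  unfold Pool.Agent.R486.TC.cnt
  have hinj : Function.Injective (fun m : ℕ => 3 * m) := fun a b h => by
    have : 3 * a = 3 * b := h
    omega
  rw [← Set.ncard_image_of_injective _ hinj, ← Set.ncard_coe_finset]
  congr 1
  ext D
  simp only [Finset.coe_filter, Finset.mem_Icc, Set.mem_ofPred_eq, Set.mem_image]
  constructor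
  · rintro ⟨⟨h1, h2⟩, m, rfl, h3⟩
    obtain ⟨g1, g2, g3⟩ := hQ m h3
    refine ⟨m, ⟨⟨?_, g1, g2, g3⟩, h3⟩, rfl⟩
    rw [Nat.le_div_iff_mul_le (by norm_num)]
    omega
  · rintro ⟨m, ⟨⟨g0, g1, g2, g3⟩, h3⟩, rfl⟩
    rw [Nat.le_div_iff_mul_le (by norm_num)] at g0
    exact ⟨⟨by omega, by omega⟩, m, rfl, h3⟩

lemma low : ∃ c : ℝ, 0 < c ∧ ∃ X₀ : ℕ, ∀ X : ℕ, X₀ ≤ X →
    c * X / Real.sqrt (Real.log X) ≤
      (Pool.Agent.R486.TC.cnt (fun D => ∃ m, D = 3 * m ∧ Class m) X : ℝ) := by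
  obtain ⟨c, X₀, hc, h⟩ := Pool.Agent.H462.N9.Law.fa_low
  refine ⟨c / 6, by positivity, 3 * X₀ + 9, fun X hX => ?_⟩
  have hY : X₀ ≤ X / 3 := by omega
  have h1 := h (X / 3) hY
  rw [cnt_three Class (fun m h => h)]
  have e : {m ∈ Pool.Agent.H462.N9.Law.Fa (X / 3) | Class m} =
      Pool.Agent.H462.N9.Law.Fa (X / 3) := by
    ext m
    simp only [Set.mem_ofPred_eq, and_iff_left_iff_imp]
    intro hm
    exact ⟨hm.2.1, hm.2.2.1, hm.2.2.2⟩
  rw [e]
  refine le_trans ?_ h1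
  have hX3 : 3 ≤ X / 3 := by omega
  have hr3 : (3 : ℝ) ≤ ((X / 3 : ℕ) : ℝ) := by exact_mod_cast hX3
  have hle : X / 3 ≤ X := Nat.div_le_self _ _
  have hl0 : 0 < Real.log ((X / 3 : ℕ) : ℝ) := Real.log_pos (by linarith)
  have hl1 : Real.log ((X / 3 : ℕ) : ℝ) ≤ Real.log X :=
    Real.log_le_log (by linarith) (by exact_mod_cast hle)
  have hl2 : 0 < Real.log X := lt_of_lt_of_le hl0 hl1
  rw [Real.rpow_neg hl0.le, ← Real.sqrt_eq_rpow, div_eq_mul_inv]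
  have h6 : (X : ℝ) ≤ 6 * ((X / 3 : ℕ) : ℝ) := by exact_mod_cast (by omega : X ≤ 6 * (X / 3))
  have hs1 : (Real.sqrt (Real.log X))⁻¹ ≤ (Real.sqrt (Real.log ((X / 3 : ℕ) : ℝ)))⁻¹ :=
    inv_anti₀ (Real.sqrt_pos.2 hl0) (Real.sqrt_le_sqrt hl1)
  have hs0 : 0 ≤ (Real.sqrt (Real.log X))⁻¹ := by positivity
  have h7 : c / 6 * X ≤ c * ((X / 3 : ℕ) : ℝ) := by nlinarith
  exact mul_le_mul h7 hs1 hs0 (by positivity)

open Pool.Agent.T2H55.XY in
/-- **Main theorem.** -/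
theorem result :
    -- (0) the identification of `C_A` with the Weierstrass curve
    (∀ A : ℤ, A ≠ 0 →
      (∀ X Y : ℚ, X ^ 3 + Y ^ 3 = A → ∃ P : Points A, P ≠ 0 ∧ IsPoint A P X Y) ∧
      (∀ P : Points A, P ≠ 0 → ∃! z : ℚ × ℚ, IsPoint A P z.1 z.2) ∧
      (∀ (P Q : Points A) (X Y : ℚ), IsPoint A P X Y → IsPoint A Q Y X → P + Q = 0) ∧
      (∀ (P₁ P₂ P₃ : Points A) (X₁ Y₁ X₂ Y₂ X₃ Y₃ a b c : ℚ), IsPoint A P₁ X₁ Y₁ → IsPoint A P₂ X₂ Y₂ →
        IsPoint A P₃ X₃ Y₃ → (X₁, Y₁) ≠ (X₂, Y₂) → (X₁, Y₁) ≠ (X₃, Y₃) → (X₂, Y₂) ≠ (X₃, Y₃) →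
        a ≠ 0 ∨ b ≠ 0 → a * X₁ + b * Y₁ = c → a * X₂ + b * Y₂ = c → a * X₃ + b * Y₃ = c →
        P₁ + P₂ + P₃ = 0)) ∧
    PrimrecPred Family ∧
    ∃ R : ℕ → ℕ, Primrec R ∧
      -- (1) the function `R`
      (∀ m n : ℕ, Class m → n ≠ 0 → (splittings (3 * m)).ncard = 3 ^ (R (3 * m * n ^ 3) + 1)) ∧
      -- (2) all curves of the family
      (∀ A : ℤ, Family A.natAbs →
        (∀ P : Points A, ∀ n : ℤ, n ≠ 0 → n • P = 0 → P = 0) ∧
        Module.Finite ℤ (Points A) ∧ r A = Module.finrank ℤ (Points A) ∧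
        r A ≤ 2 * R A.natAbs ∧
        (R A.natAbs = 0 → r A = 0 ∧ ∀ X Y : ℚ, X ^ 3 + Y ^ 3 ≠ A)) ∧
      -- (3) the distribution of the values of `R`
      (∃ c : ℝ, 0 < c ∧ ∃ X₀ : ℕ, ∀ X : ℕ, X₀ ≤ X →
        c * X / Real.sqrt (Real.log X) ≤ (count Family X : ℝ)) ∧
      (∀ s : ℕ, Filter.Tendsto (fun X : ℕ =>
        (count (fun N => Family N ∧ R N = s) X : ℝ) / (count Family X : ℝ)) Filter.atTop
        (nhds (p s))) ∧
      (0.56 < p 0 ∧ p 0 < 0.5602 ∧ p 1 = 3 / 4 * p 0 ∧ 0.98 < p 0 + p 1 ∧ HasSum p 1) := by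
  have hc := Pool.Agent.Y461.CX.t_C3
  refine ⟨?_, Pool.Agent.H519.G3.pfamily, Pool.Agent.H519.G3.R, Pool.Agent.H519.G3.pR,
    fun m n h hn => R_spec h hn, ?_, ?_, ?_, ?_⟩
  · intro A hA
    have hAq : (A : ℚ) ≠ 0 := by exact_mod_cast hA
    refine ⟨?_, ?_, ?_, ?_⟩
    · intro X Y h
      obtain ⟨P, hP⟩ := exists_pt hAq h
      exact ⟨P, hP.ne_zero, h, hP⟩
    · intro P hP
      rcases cases_at (a := 0) (b := -432 * (A : ℚ) ^ 2) P with h | ⟨x, y, h⟩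
      · exact absurd h hP
      obtain ⟨X, Y, h1, h2, h3⟩ := pt_inv hAq h
      refine ⟨(X, Y), ⟨h1, h.congr h2.symm h3.symm⟩, ?_⟩
      rintro ⟨X', Y'⟩ ⟨g1, g2⟩
      have g2' : At (a := 0) (b := -432 * (A : ℚ) ^ 2) P (wx A X' Y') (wy A X' Y') := g2
      obtain ⟨k1, k2⟩ := h.inj g2'
      obtain ⟨k3, k4⟩ := wx_inj hAq h1 g1 (h2.trans k1) (h3.trans k2)
      rw [k3, k4]
    · intro P Q X Y h1 h2
      have h1' : At (a := 0) (b := -432 * (A : ℚ) ^ 2) P (wx A X Y) (wy A X Y) := h1.2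
      have h2' : At (a := 0) (b := -432 * (A : ℚ) ^ 2) Q (wx A Y X) (wy A Y X) := h2.2
      have h3 : Q = -P := by
        refine h2'.ext (h1'.neg.congr ?_ ?_)
        · unfold wx; rw [add_comm]
        · unfold wy; rw [add_comm Y X]; ring
      rw [h3, add_neg_cancel]
    · intro P₁ P₂ P₃ X₁ Y₁ X₂ Y₂ X₃ Y₃ a b c h1 h2 h3 n12 n13 n23 hab l1 l2 l3
      exact collinear hAq h1.1 h2.1 h3.1 hab l1 l2 l3 n12 n13 n23 h1.2 h2.2 h3.2
  · rintro A ⟨m, n, h1, h2, h3⟩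
    obtain ⟨hs, hne⟩ := class_sq h3
    have h4 := R_spec h3 h2
    rw [← h1] at h4
    obtain ⟨a1, a2, a3, a4⟩ := Pool.Agent.H519.G3.one_A hs hne h2 h1 h4
    have a4' : r A = Module.finrank ℤ (Points A) := a4
    refine ⟨a3, a1, a4', ?_, fun h0 => ⟨?_, ?_⟩⟩
    · rw [a4']
      exact a2
    · rw [a4']
      rw [h0] at a2
      exact Nat.le_zero.1 a2
    · rw [h0] at h4
      exact Pool.Agent.H519.G3.none hs hne h2 h1 h4
  · obtain ⟨c, hc0, X₀, h⟩ := low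
    refine ⟨c, hc0, X₀, fun X hX => (h X hX).trans ?_⟩
    have := Pool.Agent.R486.TC.cnt_mono (P := fun D => ∃ m, D = 3 * m ∧ Class m) (Q := Family)
      (fun D hD => by
        obtain ⟨m, rfl, hm⟩ := hD
        exact ⟨m, 1, by ring, one_ne_zero, hm⟩) X
    exact_mod_cast this
  · intro s
    have hlim : Filter.Tendsto (fun X : ℕ =>
        (Pool.Agent.R486.TC.cnt (fun D => ∃ m, D = 3 * m ∧ Class m ∧
          (splittings (3 * m)).ncard = 3 ^ (s + 1)) X : ℝ) /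
        (Pool.Agent.R486.TC.cnt (fun D => ∃ m, D = 3 * m ∧ Class m) X : ℝ)) Filter.atTop
        (nhds (p s)) := by
      have h1 := (Pool.Agent.H462.N9.Law.law s).comp
        (Nat.tendsto_div_const_atTop (by norm_num : (3 : ℕ) ≠ 0))
      refine h1.congr fun X => ?_
      simp only [Function.comp]
      rw [cnt_three Class (fun m h => h), cnt_three (fun m => Class m ∧
        (splittings (3 * m)).ncard = 3 ^ (s + 1)) (fun m h => h.1)]
      congr 3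
      · ext m
        simp only [Set.mem_ofPred_eq]
        constructor
        · rintro ⟨h2, h3⟩
          exact ⟨h2, ⟨h2.2.1, h2.2.2.1, h2.2.2.2⟩, h3⟩
        · rintro ⟨h2, -, h3⟩
          exact ⟨h2, h3⟩
      · ext m
        simp only [Set.mem_ofPred_eq]
        constructor
        · intro h2
          exact ⟨h2, ⟨h2.2.1, h2.2.2.1, h2.2.2.2⟩⟩
        · rintro ⟨h2, -⟩
          exact h2
    have h := Pool.Agent.R486.TC.dens (P := fun D => ∃ m, D = 3 * m ∧ Class m ∧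
          (splittings (3 * m)).ncard = 3 ^ (s + 1)) (Q := fun D => ∃ m, D = 3 * m ∧ Class m)
      (fun D hD => by
        obtain ⟨m, rfl, hm, -⟩ := hD
        exact ⟨m, rfl, hm⟩)
      (fun D hD => by
        obtain ⟨m, rfl, hm⟩ := hD
        exact class_cf hm) low hlim
    refine h.congr fun X => ?_
    unfold Pool.Agent.R486.TC.cnt count
    congr 3
    · ext N
      simp only [Finset.mem_filter]
      exact and_congr_right fun _ => ext_corank s N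
    · ext N
      rw [Finset.mem_filter, Finset.mem_filter]
      exact and_congr_right fun _ => ext_family N
  · have hp0 : (0.56 : ℝ) < p 0 := by
      have : p 0 = Pool.Agent.H462.N9.Law.ur 0 := rfl
      rw [this, Pool.Agent.H462.N9.Law.ur_zero]
      exact hc.2.2.2
    have hp1 : p 1 = 3 / 4 * p 0 := by
      have e0 : p 0 = Pool.Agent.H462.N9.Law.ur 0 := rfl
      have e1 : p 1 = Pool.Agent.H462.N9.Law.ur 1 := rfl
      rw [e0, e1, Pool.Agent.H462.N9.Law.ur_one, Pool.Agent.H462.N9.Law.ur_zero]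
    refine ⟨hp0, ?_, hp1, by rw [hp1]; linarith, Pool.Agent.H462.N9.Law.ur_hasSum hc⟩
    have : p 0 = Pool.Agent.H462.N9.Law.ur 0 := rfl
    rw [this, Pool.Agent.H462.N9.Law.ur_zero]
    exact Pool.Agent.H462.N9.Law.c3_lt

end Pool.Agent.Results.MP_8e0b0b_nt.ThreeTimesSplitPrimes
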